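import Pool.Agent.helper38.VA.Spec

set_option autoImplicit false

namespace Pool.Agent.VA

open Matrix Module Pool.Agent.PR Pool.Agent.H48SL

/-- The matrices with image in `ℚ k`. -/
def DND_K {n : ℕ} (k : Fin n → ℚ) (A : MQ n) : Prop := ∀ u, ∃ c : ℚ, A *ᵥ u = c • k

theorem DND_add {n : ℕ} {k : Fin n → ℚ} {A B : MQ n} (hA : DND_K k A) (hB : DND_K k B) :
    DND_K k (A + B) := by
  intro u
  obtain ⟨a, ha⟩ := hA u
  obtain ⟨b, hb⟩ := hB u
  exact ⟨a + b, by rw [Matrix.add_mulVec, ha, hb, add_smul]⟩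

theorem DND_neg {n : ℕ} {k : Fin n → ℚ} {A : MQ n} (hA : DND_K k A) : DND_K k (-A) := by
  intro u
  obtain ⟨a, ha⟩ := hA u
  exact ⟨-a, by rw [Matrix.neg_mulVec, ha, neg_smul]⟩

theorem DND_sub {n : ℕ} {k : Fin n → ℚ} {A B : MQ n} (hA : DND_K k A) (hB : DND_K k B) :
    DND_K k (A - B) := by
  rw [sub_eq_add_neg]
  exact DND_add hA (DND_neg hB)

theorem DND_smul {n : ℕ} {k : Fin n → ℚ} {A : MQ n} (s : ℚ) (hA : DND_K k A) :
    DND_K k (s • A) := by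
  intro u
  obtain ⟨a, ha⟩ := hA u
  exact ⟨s * a, by rw [Matrix.smul_mulVec, ha, smul_smul]⟩

theorem DND_mulr {n : ℕ} {k : Fin n → ℚ} {A : MQ n} (hA : DND_K k A) (B : MQ n) :
    DND_K k (A * B) := by
  intro u
  obtain ⟨a, ha⟩ := hA (B *ᵥ u)
  exact ⟨a, by rw [← Matrix.mulVec_mulVec, ha]⟩

theorem DND_mull {n : ℕ} {k : Fin n → ℚ} {A B : MQ n} (hA : DND_K k A) (s : ℚ)
    (hB : B *ᵥ k = s • k) : DND_K k (B * A) := by
  intro u
  obtain ⟨a, ha⟩ := hA u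
  exact ⟨a * s, by rw [← Matrix.mulVec_mulVec, ha, Matrix.mulVec_smul, hB, smul_smul]⟩

/-- Squares. -/
theorem DND_sq {n : ℕ} {W : Submodule ℚ (MQ n)} {k φ : Fin n → ℚ} (h : DT W k φ) {X Y : MQ n}
    (hX : X ∈ W) (hY : Y ∈ W) : DND_K k (X * Y) := by
  intro u
  have h1 : φ ⬝ᵥ (Y *ᵥ u) = 0 := by
    rw [Matrix.dotProduct_mulVec, h.fX Y hY, zero_dotProduct]
  obtain ⟨c, hc⟩ := h.Xu X hX _ h1
  exact ⟨c, by rw [← Matrix.mulVec_mulVec, hc]⟩

theorem DND_cube {n : ℕ} {W : Submodule ℚ (MQ n)} {k φ : Fin n → ℚ} (h : DT W k φ) {X : MQ n}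
    (hX : X ∈ W) : X ^ 3 = 0 := by
  have h1 : X ^ 3 = X * (X * X) := by rw [pow_succ, pow_two, mul_assoc]
  rw [h1]
  apply Matrix.toLin'.injective
  apply LinearMap.ext
  intro u
  rw [Matrix.toLin'_apply, ← Matrix.mulVec_mulVec]
  obtain ⟨c, hc⟩ := DND_sq h hX hX u
  rw [hc, Matrix.mulVec_smul, h.Xk X hX, smul_zero, map_zero, LinearMap.zero_apply]

theorem DND_exp {n : ℕ} {W : Submodule ℚ (MQ n)} {k φ : Fin n → ℚ} (h : DT W k φ) {X : MQ n}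
    (hX : X ∈ W) : DND_K k (IsNilpotent.exp X - 1 - X) ∧ IsNilpotent.exp X *ᵥ k = k := by
  have h1 : IsNilpotent.exp X = 1 + X + (2 : ℚ)⁻¹ • (X * X) := by
    rw [IsNilpotent.exp_eq_sum (DND_cube h hX)]
    simp [Finset.sum_range_succ, pow_two]
  constructor
  · rw [h1]
    have e : 1 + X + (2 : ℚ)⁻¹ • (X * X) - 1 - X = (2 : ℚ)⁻¹ • (X * X) := by abel
    rw [e]
    exact DND_smul _ (DND_sq h hX hX)
  · rw [h1, Matrix.add_mulVec, Matrix.add_mulVec, Matrix.one_mulVec, h.Xk X hX,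
      Matrix.smul_mulVec, ← Matrix.mulVec_mulVec, h.Xk X hX, Matrix.mulVec_zero, smul_zero,
      add_zero, add_zero]

theorem DND_std {n : ℕ} {W : Submodule ℚ (MQ n)} {k φ : Fin n → ℚ} (h : DT W k φ) {X : MQ n}
    (hX : X ∈ W) {a : SLZ n} (ha : stdM ℚ a = IsNilpotent.exp X) :
    DND_K k (stdM ℚ a - 1 - X) ∧ DND_K k (stdM ℚ a⁻¹ - 1 + X) ∧ stdM ℚ a *ᵥ k = k ∧
      stdM ℚ a⁻¹ *ᵥ k = k := by
  have hn : IsNilpotent X := ⟨3, DND_cube h hX⟩
  have h1 : stdM ℚ a⁻¹ = IsNilpotent.exp (-X) := by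
    calc stdM ℚ a⁻¹ = stdM ℚ a⁻¹ * (IsNilpotent.exp X * IsNilpotent.exp (-X)) := by
          rw [IsNilpotent.exp_mul_exp_neg_self hn, mul_one]
      _ = (stdM ℚ a⁻¹ * stdM ℚ a) * IsNilpotent.exp (-X) := by rw [← ha, mul_assoc]
      _ = IsNilpotent.exp (-X) := by rw [stdM_inv_mul, one_mul]
  have hX' : -X ∈ W := W.neg_mem hX
  obtain ⟨p1, p2⟩ := DND_exp h hX
  obtain ⟨q1, q2⟩ := DND_exp h hX'
  rw [ha, h1]
  refine ⟨p1, ?_, p2, q2⟩
  have e : IsNilpotent.exp (-X) - 1 + X = IsNilpotent.exp (-X) - 1 - -X := by abel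
  rw [e]
  exact q1

/-- The commutator of two elements. -/
theorem DND_comm {n : ℕ} {k : Fin n → ℚ} {A A' B B' X Y Z : MQ n}
    (hA : DND_K k (A - 1 - X)) (hA' : DND_K k (A' - 1 + X)) (hB : DND_K k (B - 1 - Y))
    (hB' : DND_K k (B' - 1 + Y)) (hXk : X *ᵥ k = 0) (hYk : Y *ᵥ k = 0) (hZk : Z *ᵥ k = 0)
    (hXX : DND_K k (X * X)) (hYY : DND_K k (Y * Y)) (hZZ : DND_K k (Z * Z))
    (hXYZ : DND_K k (X * Y - Z)) (hYX : DND_K k (Y * X)) (hXZ : DND_K k (X * Z))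
    (hZX : DND_K k (Z * X)) (hYZ : Y * Z = Z * Y) :
    DND_K k (A * B * (A' * B') - (1 + Z)) := by
  have p1 : DND_K k (A * B - (1 + X + Y + Z)) := by
    have e : A * B - (1 + X + Y + Z) = (A - 1 - X) * B + (1 + X) * (B - 1 - Y) + (X * Y - Z) := by
      noncomm_ring
    rw [e]
    refine DND_add (DND_add (DND_mulr hA B) (DND_mull hB 1 ?_)) hXYZ
    rw [Matrix.add_mulVec, Matrix.one_mulVec, hXk, add_zero, one_smul]
  have p2 : DND_K k (A' * B' - (1 - X - Y + Z)) := by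
    have e : A' * B' - (1 - X - Y + Z) =
        (A' - 1 + X) * B' + (1 - X) * (B' - 1 + Y) + (X * Y - Z) := by
      noncomm_ring
    rw [e]
    refine DND_add (DND_add (DND_mulr hA' B') (DND_mull hB' 1 ?_)) hXYZ
    rw [Matrix.sub_mulVec, Matrix.one_mulVec, hXk, sub_zero, one_smul]
  have e : A * B * (A' * B') - (1 + Z) = (A * B - (1 + X + Y + Z)) * (A' * B') +
      (1 + X + Y + Z) * (A' * B' - (1 - X - Y + Z)) +
      (X * Z - (X * Y - Z) - X * X - Y * X - Y * Y - Z * X + Z * Z + (Y * Z - Z * Y)) := by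
    noncomm_ring
  rw [e, hYZ, sub_self, add_zero]
  refine DND_add (DND_add (DND_mulr p1 _) (DND_mull p2 1 ?_)) ?_
  · rw [Matrix.add_mulVec, Matrix.add_mulVec, Matrix.add_mulVec, Matrix.one_mulVec, hXk, hYk, hZk,
      add_zero, add_zero, add_zero, one_smul]
  · exact DND_add (DND_sub (DND_sub (DND_sub (DND_sub (DND_sub hXZ hXYZ) hXX) hYX) hYY) hZX) hZZ

theorem DND_inj {n : ℕ} {a b : SLZ n} (h : stdM ℚ a = stdM ℚ b) : a = b := by
  apply Subtype.ext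
  funext i j
  have h1 := congrFun (congrFun h i) j
  unfold stdM at h1
  rw [Matrix.map_apply, Matrix.map_apply] at h1
  exact Int.cast_injective (α := ℚ) h1

theorem DND_pow {n : ℕ} {k : Fin n → ℚ} {C Z : MQ n} (hC : DND_K k (C - 1 - Z))
    (hZk : Z *ᵥ k = 0) (hZZ : DND_K k (Z * Z)) (j : ℕ) :
    DND_K k (C ^ j - 1 - (j : ℚ) • Z) := by
  induction j with
  | zero =>
    intro u
    exact ⟨0, by simp⟩
  | succ j ih =>
    have e : C ^ (j + 1) - 1 - ((j + 1 : ℕ) : ℚ) • Z = (C ^ j - 1 - (j : ℚ) • Z) * C +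
        (1 + (j : ℚ) • Z) * (C - 1 - Z) + (j : ℚ) • (Z * Z) := by
      rw [pow_succ, Nat.cast_succ, add_smul, one_smul]
      simp only [sub_mul, add_mul, mul_sub, one_mul, mul_one, smul_mul_assoc]
      abel
    rw [e]
    refine DND_add (DND_add (DND_mulr ih C) (DND_mull hC 1 ?_)) (DND_smul _ hZZ)
    rw [Matrix.add_mulVec, Matrix.one_mulVec, Matrix.smul_mulVec, hZk, smul_zero, add_zero,
      one_smul]

theorem DND (hF2 : F2_stmt) (hDNR : DNR_stmt) : DND_stmt := by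
  rintro n h3 h4 H hH W W' k φ φ' hW hW' hcom ⟨X, hX, Y, hY, Z, hZ, hX0, hZ0, hEX, hEY, hEZ, hXYZ,
    hYX, hXZ, hZX⟩
  obtain ⟨a, haH, ha⟩ := id hEX
  obtain ⟨y, hyH, hy⟩ := hEY
  obtain ⟨z, hzH, hz⟩ := hEZ
  obtain ⟨a1, a2, a3, a4⟩ := DND_std hW hX ha
  obtain ⟨y1, y2, y3, y4⟩ := DND_std hW' hY hy
  obtain ⟨z1, z2, z3, z4⟩ := DND_std hW' hZ hz
  have hXX := DND_sq hW hX hX
  have hYY := DND_sq hW' hY hY
  have hZZ := DND_sq hW' hZ hZ
  have hXk := hW.Xk X hX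
  have hYk := hW'.Xk Y hY
  have hZk := hW'.Xk Z hZ
  have hYZ := hcom Y hY Z hZ
  by_cases hr : a * y * (a⁻¹ * y⁻¹) * z⁻¹ = 1
  · by_cases hr' : a * z * (a⁻¹ * z⁻¹) = 1
    · refine hF2 n h3 h4 H hH ⟨a, haH, y, hyH, z, hzH, ?_, ?_, ?_, ?_⟩
      · have h1 : a * z = a * z * (a⁻¹ * z⁻¹) * (z * a) := by group
        rw [h1, hr', one_mul]
      · apply DND_inj
        rw [stdM_mul, stdM_mul, hy, hz]
        have hc : Commute Y Z := hYZ
        have nY : IsNilpotent Y := ⟨3, DND_cube hW' hY⟩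
        have nZ : IsNilpotent Z := ⟨3, DND_cube hW' hZ⟩
        rw [← IsNilpotent.exp_add_of_commute hc nY nZ, ← IsNilpotent.exp_add_of_commute hc.symm nZ nY,
          add_comm]
      · have h1 : a * y = a * y * (a⁻¹ * y⁻¹) * z⁻¹ * (z * (y * a)) := by group
        rw [h1, hr, one_mul]
      · intro j hj hzj
        have h1 := DND_pow z1 hZk hZZ j
        have h2 : stdM ℚ z ^ j = 1 := by
          have h5 := map_pow (stdHom n ℚ) z j
          rw [stdHom_apply, stdHom_apply] at h5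
          rw [← h5, hzj, stdM_one]
        rw [h2, sub_self, zero_sub] at h1
        apply hW'.an Z hZ hZ0
        apply Matrix.toLin'.injective
        apply LinearMap.ext
        intro u
        rw [Matrix.toLin'_apply, ← Matrix.mulVec_mulVec, map_zero, LinearMap.zero_apply]
        obtain ⟨c, hc⟩ := h1 u
        rw [Matrix.neg_mulVec, Matrix.smul_mulVec] at hc
        have hj0 : (j : ℚ) ≠ 0 := by exact_mod_cast hj.ne'
        have h6 : Z *ᵥ u = (-((j : ℚ)⁻¹ * c)) • k := by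
          have h7 : (j : ℚ)⁻¹ • ((j : ℚ) • (Z *ᵥ u)) = Z *ᵥ u := by
            rw [smul_smul, inv_mul_cancel₀ hj0, one_smul]
          rw [← h7, ← neg_neg ((j : ℚ) • (Z *ᵥ u)), hc, smul_neg, smul_smul, neg_smul]
        rw [h6, Matrix.mulVec_smul, hZk, smul_zero]
    · refine hDNR n h3 H hH W k φ hW X hX hX0 hEX (a * z * (a⁻¹ * z⁻¹)) ?_ hr' ?_ ?_
      · exact H.mul_mem (H.mul_mem haH hzH) (H.mul_mem (H.inv_mem haH) (H.inv_mem hzH))
      · rw [stdM_mul, stdM_mul, stdM_mul, ← Matrix.mulVec_mulVec, ← Matrix.mulVec_mulVec,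
          ← Matrix.mulVec_mulVec, z4, a4, z3, a3]
      · have h1 := DND_comm (Z := 0) a1 a2 z1 z2 hXk hZk (Matrix.zero_mulVec k) hXX hZZ
          (by rw [mul_zero]; exact fun u => ⟨0, by simp⟩)
          (by rw [sub_zero]; exact hXZ) hZX
          (by rw [mul_zero]; exact fun u => ⟨0, by simp⟩)
          (by rw [zero_mul]; exact fun u => ⟨0, by simp⟩) (by rw [mul_zero, zero_mul])
        rw [add_zero] at h1
        rw [stdM_mul, stdM_mul, stdM_mul]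
        exact h1
  · refine hDNR n h3 H hH W k φ hW X hX hX0 hEX (a * y * (a⁻¹ * y⁻¹) * z⁻¹) ?_ hr ?_ ?_
    · exact H.mul_mem (H.mul_mem (H.mul_mem haH hyH) (H.mul_mem (H.inv_mem haH) (H.inv_mem hyH)))
        (H.inv_mem hzH)
    · rw [stdM_mul, stdM_mul, stdM_mul, stdM_mul, ← Matrix.mulVec_mulVec, ← Matrix.mulVec_mulVec,
        ← Matrix.mulVec_mulVec, ← Matrix.mulVec_mulVec, z4, y4, a4, y3, a3]
    · have h1 := DND_comm a1 a2 y1 y2 hXk hYk hZk hXX hYY hZZ hXYZ hYX hXZ hZX hYZ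
      rw [stdM_mul, stdM_mul, stdM_mul, stdM_mul]
      have e : stdM ℚ a * stdM ℚ y * (stdM ℚ a⁻¹ * stdM ℚ y⁻¹) * stdM ℚ z⁻¹ - 1 =
          (stdM ℚ a * stdM ℚ y * (stdM ℚ a⁻¹ * stdM ℚ y⁻¹) - (1 + Z)) * stdM ℚ z⁻¹ +
          (1 + Z) * (stdM ℚ z⁻¹ - 1 + Z) - Z * Z := by
        noncomm_ring
      rw [e]
      refine DND_sub (DND_add (DND_mulr h1 _) (DND_mull z2 1 ?_)) hZZ
      rw [Matrix.add_mulVec, Matrix.one_mulVec, hZk, add_zero, one_smul]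

end Pool.Agent.VA
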